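import Mathlib
import Pool.Agent.Q41.GF.Defs
import Pool.Agent.Q41.GF.Family
import Pool.Agent.Q41.GF.Geom
import Pool.Agent.Q41.GF.Main

set_option autoImplicit false
set_option synthInstance.maxHeartbeats 400000

namespace Pool.Agent.Results.MP_b5dac0_ag.UnboundedCremona

open Q41.GF

/-- For `s = 2` and every `t ≥ 3` no bound `d = d(2, t)` exists: for every `d` there is an
irreducible almost-`(2, t)`-grid-free hypersurface `H` in `ℙ² × ℙ²` which is not almost equal to
`{F ∘ (id × σ) = 0}` for any Cremona transformation `σ` and any bihomogeneous `F` of degree at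
most `d` in `y`. -/
theorem result (t : ℕ) (ht : 3 ≤ t) (d : ℕ) :
    ∃ H : Set (PS 2 × PS 2), IsIrreducibleHypersurface H ∧ IsAlmostGridFree t H ∧
      ∀ σ : Fin (2 + 1) → MvPolynomial (Fin (2 + 1)) ℂ, IsCremona σ →
        ∀ (F : MvPolynomial (Fin (2 + 1) ⊕ Fin (2 + 1)) ℂ) (a b : ℕ), IsBihom F a b → b ≤ d →
          ¬ AlmostEqual H (zeroLocus (comp F σ)) :=
  ⟨zeroLocus (fam (2 * d + 1)),
    ⟨fam (2 * d + 1), 1, 2 * d + 1 + 2, irreducible_fam _ (by omega), isBihom_fam _, rfl⟩,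
    gridFree_fam _ t ht, fun _ hσ _ _ _ hF hb => not_almostEqual d hσ hF hb⟩

end Pool.Agent.Results.MP_b5dac0_ag.UnboundedCremona
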